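import Pool.Agent.H43R3.SN.StmtsA

/-!
# Project H43-SN, task CONS: the standard labelling
-/

set_option autoImplicit false

open Finset

namespace Pool.Agent.H957R3.SN

open Pool.Agent.H43R3.SN

/-- place `c` of bin `j`, relative to the base -/
def loc (b lam j c : ℕ) : ℕ :=
  if c % 2 = 0 then (2 * b - 1 - j) + 2 * b * (lam - 1 - c / 2) else j + 2 * b * (c / 2)

theorem dm {d α α' x x' : ℕ} (h : α < d) (h' : α' < d) (e : α + d * x = α' + d * x') :
    α = α' ∧ x = x' := by
  have h1 : α = α' := by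
    have := congrArg (fun t => t % d) e
    simpa [Nat.add_mul_mod_self_left, Nat.mod_eq_of_lt h, Nat.mod_eq_of_lt h'] using this
  refine ⟨h1, ?_⟩
  subst h1
  have : d * x = d * x' := by omega
  exact Nat.eq_of_mul_eq_mul_left (by omega) this

theorem dm2 {d α α' y z : ℕ} (h : α < d) (h' : α' < d) (e : α + α' + 1 + d * y = d * z) :
    α + α' + 1 = d ∧ y + 1 = z := by
  have hyz : y < z := by
    by_contra hc
    push Not at hc
    have := Nat.mul_le_mul_left d hc
    omega
  obtain ⟨k, rfl⟩ := Nat.exists_eq_add_of_lt hyz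
  have e1 : α + α' + 1 = d * (k + 1) := by
    have : d * (y + k + 1) = d * y + d * (k + 1) := by ring
    omega
  have hk : k = 0 := by
    by_contra hk
    have : 2 ≤ k + 1 := by omega
    have := Nat.mul_le_mul_left d this
    omega
  subst hk
  constructor
  · simpa using e1
  · rfl

theorem dlt {d α x n : ℕ} (h : α < d) (hx : x < n) : α + d * x < d * n := by
  have := Nat.mul_le_mul_left d (Nat.succ_le_of_lt hx)
  have h2 : d * (x + 1) = d * x + d := by ring
  simp only [Nat.succ_eq_add_one] at this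
  omega

theorem loc_lt {b lam j c : ℕ} (hj : j < b) (hc : c < 2 * lam) :
    loc b lam j c < 2 * b * lam := by
  unfold loc
  split_ifs with h
  · exact dlt (by omega) (by omega)
  · exact dlt (by omega) (by omega)

theorem loc_inj {b lam j c j' c' : ℕ} (hj : j < b) (hc : c < 2 * lam) (hj' : j' < b)
    (hc' : c' < 2 * lam) (e : loc b lam j c = loc b lam j' c') : j = j' ∧ c = c' := by
  unfold loc at e
  split_ifs at e with h h' h'
  · obtain ⟨h1, h2⟩ := dm (d := 2 * b) (by omega) (by omega) e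
    omega
  · obtain ⟨h1, h2⟩ := dm (d := 2 * b) (by omega) (by omega) e
    omega
  · obtain ⟨h1, h2⟩ := dm (d := 2 * b) (by omega) (by omega) e
    omega
  · obtain ⟨h1, h2⟩ := dm (d := 2 * b) (by omega) (by omega) e
    omega

theorem sum_aux {d α α' x x' lam : ℕ} (h : α < d) (h' : α' < d) :
    ((α + d * x) + (α' + d * x') + 1 + d = d * lam ∨ (α + d * x) + (α' + d * x') + 1 = d * lam) ↔
      (α + α' + 1 = d ∧ (x + x' + 2 = lam ∨ x + x' + 1 = lam)) := by
  constructor
  · rintro (e | e)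
    · have e' : α + α' + 1 + d * (x + x' + 1) = d * lam := by
        rw [← e]; ring
      obtain ⟨h1, h2⟩ := dm2 h h' e'
      exact ⟨h1, Or.inl (by omega)⟩
    · have e' : α + α' + 1 + d * (x + x') = d * lam := by
        rw [← e]; ring
      obtain ⟨h1, h2⟩ := dm2 h h' e'
      exact ⟨h1, Or.inr (by omega)⟩
  · rintro ⟨h1, h2 | h2⟩
    · left
      subst h2
      have : α' + α + 1 = d := by omega
      calc (α + d * x) + (α' + d * x') + 1 + d = (α + α' + 1) + d * (x + x' + 1) := by ring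
        _ = d + d * (x + x' + 1) := by rw [h1]
        _ = d * (x + x' + 2) := by ring
    · right
      subst h2
      calc (α + d * x) + (α' + d * x') + 1 = (α + α' + 1) + d * (x + x') := by ring
        _ = d + d * (x + x') := by rw [h1]
        _ = d * (x + x' + 1) := by ring

theorem loc_sum {b lam j c j' c' : ℕ} (hj : j < b) (hc : c < 2 * lam) (hj' : j' < b)
    (hc' : c' < 2 * lam) :
    (loc b lam j c + loc b lam j' c' + 1 + 2 * b = 2 * b * lam ∨
      loc b lam j c + loc b lam j' c' + 1 = 2 * b * lam) ↔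
      (j = j' ∧ (c = c' + 1 ∨ c' = c + 1)) := by
  unfold loc
  split_ifs with h h' h'
  · rw [sum_aux (by omega) (by omega)]; omega
  · rw [sum_aux (by omega) (by omega)]; omega
  · rw [sum_aux (by omega) (by omega)]; omega
  · rw [sum_aux (by omega) (by omega)]; omega

/-- offset of item `i` in its bin -/
def off (K : ℕ) (a : List ℕ) (f : ℕ → ℕ) (i : ℕ) : ℕ :=
  ∑ i' ∈ (range i).filter (fun i' => f i' = f i), (K * a.getD i' 0 + 1)

theorem off_le {K : ℕ} {a : List ℕ} {f : ℕ → ℕ} {i i' : ℕ} (h : i < i') :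
    off K a f i + (K * a.getD i 0 + 1) ≤
      ∑ k ∈ (range i').filter (fun k => f k = f i), (K * a.getD k 0 + 1) := by
  unfold off
  have hn : i ∉ (range i).filter (fun k => f k = f i) := by simp
  have hs : insert i ((range i).filter (fun k => f k = f i)) ⊆
      (range i').filter (fun k => f k = f i) := by
    intro x hx
    rw [mem_insert] at hx
    rcases hx with rfl | hx
    · simp [h]
    · simp only [mem_filter, mem_range] at hx ⊢
      exact ⟨by omega, hx.2⟩
  have := Finset.sum_le_sum_of_subset (f := fun k => K * a.getD k 0 + 1) hs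
  rw [Finset.sum_insert hn] at this
  omega

theorem off_lt {K : ℕ} {a : List ℕ} {f : ℕ → ℕ} {i i' : ℕ} (h : i < i') (hf : f i = f i') :
    off K a f i + (K * a.getD i 0 + 1) ≤ off K a f i' := by
  have := off_le (K := K) (a := a) (f := f) h
  rw [hf] at this
  exact this

theorem off_bd {b B K' : ℕ} {a : List ℕ} {f : ℕ → ℕ} (hf : ∀ i < a.length, f i < b)
    (hB : ∀ j < b, ∑ i ∈ (range a.length).filter (fun i => f i = j), a.getD i 0 ≤ B)
    {i q : ℕ} (hi : i < a.length) (hq : q < 2 * K' * a.getD i 0) :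
    off (2 * K') a f i + q < 2 * (K' * B + a.length) := by
  have h1 := off_le (K := 2 * K') (a := a) (f := f) hi
  have h2 : ∑ k ∈ (range a.length).filter (fun k => f k = f i), (2 * K' * a.getD k 0 + 1) ≤
      2 * K' * B + a.length := by
    rw [Finset.sum_add_distrib, ← Finset.mul_sum]
    have h3 := Nat.mul_le_mul_left (2 * K') (hB (f i) (hf i hi))
    have h4 : ∑ k ∈ (range a.length).filter (fun k => f k = f i), 1 ≤ a.length := by
      rw [Finset.sum_const, smul_eq_mul, mul_one]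
      exact (Finset.card_filter_le _ _).trans (by simp)
    exact Nat.add_le_add h3 h4
  have h5 : 2 * (K' * B + a.length) = 2 * K' * B + a.length + a.length := by ring
  omega

/-- two items at consecutive or equal places in the same bin -/
theorem off_eq {K : ℕ} {a : List ℕ} {f : ℕ → ℕ} {i i' q q' : ℕ}
    (hq : q < K * a.getD i 0) (hq' : q' < K * a.getD i' 0) (hf : f i = f i')
    (h : off K a f i + q ≤ off K a f i' + q' + 1) (h' : off K a f i' + q' ≤ off K a f i + q + 1) :
    i = i' := by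
  rcases lt_trichotomy i i' with hl | hl | hl
  · have := off_lt (K := K) (a := a) hl hf
    omega
  · exact hl
  · have := off_lt (K := K) (a := a) hl hf.symm
    omega

theorem mem_vlist {S d K N : ℕ} {a : List ℕ} {v : Vt} : v ∈ vlist S d K N a ↔
    (∃ i ≤ S, v = (0, i, 0)) ∨ (∃ i ≤ S + d, v = (1, i, 0)) ∨
      (∃ i < a.length, ∃ q < K * a.getD i 0, v = (2, i, q)) ∨ (∃ i ≤ S, v = (3, i, 0)) ∨
      (∃ i < N, v = (4, i, 0)) := by
  unfold vlist
  simp only [List.mem_append, List.mem_map, List.mem_range, List.mem_flatMap, Nat.lt_succ_iff]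
  constructor
  · rintro (⟨i, hi, rfl⟩ | ⟨i, hi, rfl⟩ | ⟨i, hi, q, hq, rfl⟩ | ⟨i, hi, rfl⟩ | ⟨i, hi, rfl⟩)
    · exact Or.inl ⟨i, by omega, rfl⟩
    · exact Or.inr (Or.inl ⟨i, by omega, rfl⟩)
    · exact Or.inr (Or.inr (Or.inl ⟨i, hi, q, hq, rfl⟩))
    · exact Or.inr (Or.inr (Or.inr (Or.inl ⟨i, by omega, rfl⟩)))
    · exact Or.inr (Or.inr (Or.inr (Or.inr ⟨i, hi, rfl⟩)))
  · rintro (⟨i, hi, rfl⟩ | ⟨i, hi, rfl⟩ | ⟨i, hi, q, hq, rfl⟩ | ⟨i, hi, rfl⟩ | ⟨i, hi, rfl⟩)
    · exact Or.inl ⟨i, by omega, rfl⟩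
    · exact Or.inr (Or.inl ⟨i, by omega, rfl⟩)
    · exact Or.inr (Or.inr (Or.inl ⟨i, hi, q, hq, rfl⟩))
    · exact Or.inr (Or.inr (Or.inr (Or.inl ⟨i, by omega, rfl⟩)))
    · exact Or.inr (Or.inr (Or.inr (Or.inr ⟨i, hi, rfl⟩)))

theorem mem_UU {S b B K' r N x : ℕ} : x ∈ UU S b B K' r N ↔
    (1 ≤ x ∧ x ≤ S) ∨ x = ss S b B K' r ∨ x = ss S b B K' r + 2 * b ∨
      (2 * XX S b B K' r N ≤ x + S ∧ x + 1 ≤ 2 * XX S b B K' r N) := by
  have hX : S ≤ XX S b B K' r N := by unfold XX; omega
  unfold UU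
  simp only [mem_union, mem_Icc, mem_insert, mem_singleton, mem_image]
  constructor
  · rintro ((h | h | h) | ⟨u, ⟨h1, h2⟩, rfl⟩)
    · exact Or.inl h
    · exact Or.inr (Or.inl h)
    · exact Or.inr (Or.inr (Or.inl h))
    · exact Or.inr (Or.inr (Or.inr ⟨by omega, by omega⟩))
  · rintro (h | h | h | ⟨h1, h2⟩)
    · exact Or.inl (Or.inl h)
    · exact Or.inl (Or.inr (Or.inl h))
    · exact Or.inl (Or.inr (Or.inr h))
    · exact Or.inr ⟨2 * XX S b B K' r N - x, ⟨by omega, by omega⟩, by omega⟩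

/-- the standard labelling -/
def gpos (S b B K' N : ℕ) (a : List ℕ) (f : ℕ → ℕ) (v : Vt) : ℕ :=
  match v.1 with
  | 0 => v.2.1
  | 1 => ss S b B K' a.length + 2 * b - v.2.1
  | 2 => (S + 2 * b + 1) + loc b (K' * B + a.length) (f v.2.1) (off (2 * K') a f v.2.1 + v.2.2)
  | 3 => XX S b B K' a.length N - v.2.1
  | _ => ss S b B K' a.length + 2 * b + 1 + v.2.1

theorem taskCONS : TaskCONS := by
  intro a b B K' N S hb hK hBP
  obtain ⟨f, hf, hB⟩ := hBP
  obtain ⟨M, hM⟩ : ∃ M, M = 2 * b * (K' * B + a.length) := ⟨_, rfl⟩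
  have hs : ss S b B K' a.length = 2 * S + 2 * b + 1 + M := by unfold ss; rw [hM]
  have hX : XX S b B K' a.length N = 3 * S + 4 * b + 2 + M + N := by unfold XX; rw [hM]
  have hloc : ∀ i < a.length, ∀ q < 2 * K' * a.getD i 0,
      loc b (K' * B + a.length) (f i) (off (2 * K') a f i + q) < M := by
    intro i hi q hq
    rw [hM]
    exact loc_lt (hf i hi) (off_bd hf hB hi hq)
  refine ⟨gpos S b B K' N a f, ?_, ?_, ?_⟩
  · intro u hu v hv e
    simp only [Set.mem_ofPred_eq, mem_vlist] at hu hv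
    rcases hu with ⟨i, hi, rfl⟩ | ⟨i, hi, rfl⟩ | ⟨i, hi, q, hq, rfl⟩ | ⟨i, hi, rfl⟩ | ⟨i, hi, rfl⟩ <;>
    rcases hv with ⟨i', hi', rfl⟩ | ⟨i', hi', rfl⟩ | ⟨i', hi', q', hq', rfl⟩ | ⟨i', hi', rfl⟩ |
      ⟨i', hi', rfl⟩ <;>
    simp only [gpos, hs, hX] at e
    case inr.inr.inl.inr.inr.inl =>
      have e' : loc b (K' * B + a.length) (f i) (off (2 * K') a f i + q) =
        loc b (K' * B + a.length) (f i') (off (2 * K') a f i' + q') := by omega
      obtain ⟨h1, h2⟩ := loc_inj (hf i hi) (off_bd hf hB hi hq) (hf i' hi')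
        (off_bd hf hB hi' hq') e'
      have h3 : i = i' := off_eq hq hq' h1 (by omega) (by omega)
      subst h3
      have h4 : q = q' := by omega
      rw [h4]
    all_goals
      first
      | (exfalso; omega)
      | (exfalso; have := hloc i hi q hq; omega)
      | (exfalso; have := hloc i' hi' q' hq'; omega)
      | (have : i = i' := by omega
         rw [this])
  · intro v hv
    rw [mem_vlist] at hv
    rcases hv with ⟨i, hi, rfl⟩ | ⟨i, hi, rfl⟩ | ⟨i, hi, q, hq, rfl⟩ | ⟨i, hi, rfl⟩ | ⟨i, hi, rfl⟩ <;>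
    simp only [gpos, hs, hX]
    · omega
    · omega
    · have := hloc i hi q hq
      omega
    · omega
    · omega
  · intro u hu v hv huv
    rw [mem_vlist] at hu hv
    rw [mem_UU]
    rcases hu with ⟨i, hi, rfl⟩ | ⟨i, hi, rfl⟩ | ⟨i, hi, q, hq, rfl⟩ | ⟨i, hi, rfl⟩ | ⟨i, hi, rfl⟩ <;>
    rcases hv with ⟨i', hi', rfl⟩ | ⟨i', hi', rfl⟩ | ⟨i', hi', q', hq', rfl⟩ | ⟨i', hi', rfl⟩ |
      ⟨i', hi', rfl⟩ <;>
    simp [gpos, hs, hX, gam, gb] at huv ⊢
    case inr.inr.inl.inr.inr.inl =>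
      have h1 := loc_sum (hf i hi) (off_bd hf hB hi hq) (hf i' hi') (off_bd hf hB hi' hq')
      rw [← hM] at h1
      have h2 := hloc i hi q hq
      have h3 := hloc i' hi' q' hq'
      have h4 : f i = f i' → (off (2 * K') a f i + q = off (2 * K') a f i' + q' + 1 ∨
        off (2 * K') a f i' + q' = off (2 * K') a f i + q + 1) → i = i' := by
        intro h5 h6
        exact off_eq hq hq' h5 (by omega) (by omega)
      constructor
      · rintro ⟨rfl, h5⟩
        have h6 := h1.2 ⟨rfl, by omega⟩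
        omega
      · intro h5
        have h6 := h1.1 (by omega)
        have h7 := h4 h6.1 h6.2
        subst h7
        exact ⟨rfl, by omega⟩
    all_goals
      first
      | omega
      | (have := hloc i hi q hq; omega)
      | (have := hloc i' hi' q' hq'; omega)

end Pool.Agent.H957R3.SN
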